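import Pool.Agent.MalP.Final

/-! # Trivial characteristic ideals of the free Malcev algebra

`FreeMalcev F ℕ` is the free Malcev algebra over `F` on countably many generators: the quotient of the free
nonassociative algebra by the ideal generated by all squares and all `J(x,y,xz) - J(x,y,z)x`. -/

set_option autoImplicit false

namespace Pool.Agent.Results.MP_c45a45_al.TrivialInLieCenter

open Pool.Agent.MalP

universe u

/-- Let `F` be a field of characteristic different from 2 and 3 and let `I` be an ideal of the free Malcev algebra on
countably many generators which is trivial (`I I = 0`) and characteristic (closed under all derivations). Then `I` is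
contained in the Lie center. -/
theorem result (F : Type u) [Field F] (h2 : (2 : F) ≠ 0) (h3 : (3 : F) ≠ 0)
    (I : Submodule F (FreeMalcev F ℕ)) (hideal : IsIdl I) (htrivial : IsTriv I) (hchar : IsChar I) :
    ∀ z ∈ I, z ∈ lieCenter (FreeMalcev F ℕ) :=
  trivial_char_ideals F h2 h3 I hideal htrivial hchar

end Pool.Agent.Results.MP_c45a45_al.TrivialInLieCenter
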